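import Pool.Agent.H17.CI.TargetsG

/-!
# A generic family of forms has normal crossings
-/

set_option autoImplicit false

namespace Pool.Agent.H51.CI

open MvPolynomial SC Pool.Agent.H27.LV Pool.Agent.H17.VG Pool.Agent.H17.CI

section

variable {k : Type} [Field k] [CharZero k] {m : ℕ} {κ : Type} [Fintype κ]

/-- a combination of rational polynomials -/
noncomputable def SS (c : κ → k) (P : κ → MvPolynomial (Fin m) ℚ) : MvPolynomial (Fin m) k :=
  ∑ i, C (c i) * map (algebraMap ℚ k) (P i)

theorem der_aeval (D : Derivation ℚ k k) (z : Fin m → k) (p : MvPolynomial (Fin m) ℚ) :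
    D (aeval z p) = ∑ j, aeval z (pderiv j p) * D (z j) := by
  induction p using MvPolynomial.induction_on with
  | C a =>
    rw [aeval_C, D.map_algebraMap]
    simp
  | add p q hp hq =>
    simp only [map_add, hp, hq, add_mul, Finset.sum_add_distrib]
  | mul_X p i hp =>
    simp only [map_mul, aeval_X, Derivation.leibniz, hp, smul_eq_mul, pderiv_X, map_add,
      add_mul, Finset.sum_add_distrib, Finset.mul_sum]
    congr 1
    · rw [Finset.sum_eq_single i]
      · simp
      · intro j _ hj
        rw [Pi.single_eq_of_ne hj.symm]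
        simp
      · simp
    · refine Finset.sum_congr rfl (fun j _ => ?_)
      ring

theorem SS_eval (c : κ → k) (P : κ → MvPolynomial (Fin m) ℚ) (z : Fin m → k) :
    eval z (SS c P) = ∑ i, c i * aeval z (P i) := by
  unfold SS
  rw [map_sum]
  refine Finset.sum_congr rfl fun i _ => ?_
  rw [map_mul, eval_C, eval_map, aeval_def]

theorem SS_pd (c : κ → k) (P : κ → MvPolynomial (Fin m) ℚ) (j : Fin m) :
    pderiv j (SS c P) = SS c (fun i => pderiv j (P i)) := by
  unfold SS
  rw [map_sum]
  refine Finset.sum_congr rfl fun i _ => ?_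
  rw [pderiv_C_mul, pderiv_map]

theorem SS_der (D : Derivation ℚ k k) (c : κ → k) (P : κ → MvPolynomial (Fin m) ℚ)
    (z : Fin m → k) : D (eval z (SS c P)) = eval z (SS (fun i => D (c i)) P) +
      ∑ j, eval z (pderiv j (SS c P)) * D (z j) := by
  have h1 : ∀ j, eval z (pderiv j (SS c P)) = ∑ i, c i * aeval z (pderiv j (P i)) := by
    intro j
    rw [SS_pd, SS_eval]
  simp only [h1]
  rw [SS_eval, SS_eval, map_sum]
  simp only [Finset.sum_mul]
  rw [Finset.sum_comm (s := Finset.univ (α := Fin m)), ← Finset.sum_add_distrib]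
  refine Finset.sum_congr rfl fun i _ => ?_
  rw [Derivation.leibniz, der_aeval, smul_eq_mul, smul_eq_mul, Finset.mul_sum, add_comm]
  congr 1
  · ring
  · exact Finset.sum_congr rfl fun j _ => by ring

end

theorem frm_SS {k : Type} [Field k] [CharZero k] {n e : ℕ} (c : Mon (n + 1) e → k) :
    frm c = SS c (fun M => mono ℚ M.1) := by
  unfold frm SS
  refine Finset.sum_congr rfl fun M _ => ?_
  unfold mono
  rw [MvPolynomial.map_monomial, RingHom.map_one]

theorem euler {k : Type} [Field k] {n : ℕ} (F : MvPolynomial (Fin (n + 1)) k) (d : ℕ)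
    (h : F.IsHomogeneous d) (z : Fin (n + 1) → k) :
    ∑ a, z a * eval z (pderiv a F) = d * eval z F := by
  have h1 := congrArg (eval z) h.sum_X_mul_pderiv
  simpa [map_sum, nsmul_eq_mul] using h1

theorem euler2 {k : Type} [Field k] {n : ℕ} (F : MvPolynomial (Fin (n + 1)) k) (d : ℕ)
    (h : F.IsHomogeneous (d + 1)) (z : Fin (n + 1) → k) (l : Fin (n + 1)) :
    ∑ a, z a * eval z (pderiv l (pderiv a F)) = d * eval z (pderiv l F) := by
  have h1 := congrArg (fun p => eval z (pderiv l p)) h.sum_X_mul_pderiv
  simp only [map_sum, map_nsmul] at h1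
  have h2 : ∀ a, eval z (pderiv l (X a * pderiv a F)) =
      z a * eval z (pderiv l (pderiv a F)) + if a = l then eval z (pderiv l F) else 0 := by
    intro a
    rw [Derivation.leibniz, pderiv_X, map_add, smul_eq_mul, smul_eq_mul, map_mul, map_mul, eval_X]
    congr 1
    by_cases h3 : a = l
    · subst h3
      rw [if_pos rfl, Pi.single_eq_same, map_one, mul_one]
    · rw [if_neg h3, Pi.single_eq_of_ne h3, map_zero, mul_zero]
  rw [Finset.sum_congr rfl fun a _ => h2 a, Finset.sum_add_distrib,
    Finset.sum_ite_eq' Finset.univ l] at h1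
  simp only [Finset.mem_univ, if_true, nsmul_eq_mul] at h1
  push_cast at h1
  linear_combination h1

theorem pf_NC (hG2 : Pool.Agent.H17.VG.T_G2) : T_NC := by
  classical
  intro k _ _ n ι _ e c hc z hz A hA
  rw [Fintype.linearIndependent_iff]
  intro g hg i0
  obtain ⟨b, hb⟩ := Function.ne_iff.1 hz
  have hb' : z b ≠ 0 := hb
  let M0 : Mon (n + 1) (e i0 + 1) := ⟨Pi.single b (e i0 + 1), by simp⟩
  obtain ⟨D, hD⟩ := hG2 k _ c hc (fun x => if x = ⟨i0, M0⟩ then 1 else 0)
  set F : ι → MvPolynomial (Fin (n + 1)) k := frmT c with hF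
  let G : ι → MvPolynomial (Fin (n + 1)) k := fun i => frm fun M => D (c ⟨i, M⟩)
  have hFh : ∀ i, (F i).IsHomogeneous (e i + 1) := fun i => frm_homog _
  have hGh : ∀ i, (G i).IsHomogeneous (e i + 1) := fun i => frm_homog _
  have hder : ∀ i, D (eval z (F i)) = eval z (G i) + ∑ l, eval z (pderiv l (F i)) * D (z l) := by
    intro i
    have h1 : F i = SS (fun M => c ⟨i, M⟩) (fun M => mono ℚ M.1) := frm_SS _
    have h2 : G i = SS (fun M => D (c ⟨i, M⟩)) (fun M => mono ℚ M.1) := frm_SS _
    rw [h1, h2, SS_der]
  have hder2 : ∀ i a, D (eval z (pderiv a (F i))) = eval z (pderiv a (G i)) +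
      ∑ l, eval z (pderiv l (pderiv a (F i))) * D (z l) := by
    intro i a
    have h1 : F i = SS (fun M => c ⟨i, M⟩) (fun M => mono ℚ M.1) := frm_SS _
    have h2 : G i = SS (fun M => D (c ⟨i, M⟩)) (fun M => mono ℚ M.1) := frm_SS _
    rw [h1, h2, SS_pd, SS_pd, SS_der]
  set R : Fin (n + 1) → k := fun a => ∑ i : A, g i * eval z (pderiv a (F i)) with hR
  have hRs : ∀ a : Fin n, R a.succ = 0 := by
    intro a
    have := congrFun hg a
    rw [Finset.sum_apply] at this
    exact this
  have hR0 : z 0 * R 0 = 0 := by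
    have h1 : ∑ a, z a * R a = 0 := by
      rw [hR]
      simp only [Finset.mul_sum]
      rw [Finset.sum_comm]
      refine Finset.sum_eq_zero fun i _ => ?_
      have h2 := euler (F i) _ (hFh i) z
      rw [hA i i.2, mul_zero] at h2
      calc ∑ a, z a * (g i * eval z (pderiv a (F i))) =
          g i * ∑ a, z a * eval z (pderiv a (F i)) := by
            rw [Finset.mul_sum]
            exact Finset.sum_congr rfl fun a _ => by ring
        _ = 0 := by rw [h2, mul_zero]
    rw [Fin.sum_univ_succ] at h1
    simpa [hRs] using h1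
  have hDR : ∀ a, z a * D (R a) = 0 := by
    intro a
    refine Fin.cases ?_ (fun a => ?_) a
    · rcases mul_eq_zero.1 hR0 with h | h
      · rw [h, zero_mul]
      · rw [h, map_zero, mul_zero]
    · rw [hRs, map_zero, mul_zero]
  have hmain : ∑ i : A, g i * eval z (G i) = 0 := by
    have h1 : ∑ a, z a * D (R a) = 0 := Finset.sum_eq_zero fun a _ => hDR a
    have h2 : ∀ a, z a * D (R a) = ∑ i : A, (g i * (z a * eval z (pderiv a (G i))) +
        g i * (∑ l, z a * eval z (pderiv l (pderiv a (F i))) * D (z l)) +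
        D (g i) * (z a * eval z (pderiv a (F i)))) := by
      intro a
      rw [hR]
      simp only [map_sum, Derivation.leibniz, hder2, smul_eq_mul]
      rw [Finset.mul_sum]
      refine Finset.sum_congr rfl fun i _ => ?_
      have h3 : ∑ l, z a * eval z (pderiv l (pderiv a (F i))) * D (z l) =
          z a * ∑ l, eval z (pderiv l (pderiv a (F i))) * D (z l) := by
        rw [Finset.mul_sum]
        exact Finset.sum_congr rfl fun l _ => by ring
      rw [h3]
      ring
    rw [Finset.sum_congr rfl fun a _ => h2 a, Finset.sum_comm] at h1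
    rw [← h1]
    refine Finset.sum_congr rfl fun i _ => ?_
    rw [Finset.sum_add_distrib, Finset.sum_add_distrib, ← Finset.mul_sum, ← Finset.mul_sum,
      ← Finset.mul_sum, euler _ _ (hGh i), euler _ _ (hFh i), hA i i.2, Finset.sum_comm]
    have h4 : ∀ l, ∑ a, z a * eval z (pderiv l (pderiv a (F i))) * D (z l) =
        (e i : k) * (eval z (pderiv l (F i)) * D (z l)) := by
      intro l
      rw [← Finset.sum_mul, euler2 _ _ (hFh i)]
      ring
    rw [Finset.sum_congr rfl fun l _ => h4 l, ← Finset.mul_sum]
    have h5 := hder i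
    rw [hA i i.2, map_zero] at h5
    push_cast
    linear_combination (g i * (e i : k)) * h5
  have hG0 : ∀ i : A, eval z (G i) = if i = i0 then z b ^ (e i0 + 1) else 0 := by
    intro i
    change eval z (frm fun M => D (c ⟨i, M⟩)) = _
    unfold frm
    rw [map_sum]
    beta_reduce
    by_cases hi : i = i0
    · subst hi
      rw [if_pos rfl, Finset.sum_eq_single M0]
      · rw [map_mul, eval_C, hD, if_pos rfl, one_mul, eval_mono, Finset.prod_eq_single b]
        · simp [M0]
        · intro j _ hj
          simp [M0, Pi.single_eq_of_ne hj]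
        · simp
      · intro M _ hM
        rw [map_mul, eval_C, hD, if_neg, zero_mul]
        intro h
        apply hM
        simpa only [Sigma.mk.injEq, heq_eq_eq, true_and] using h
      · simp
    · rw [if_neg hi]
      refine Finset.sum_eq_zero fun M _ => ?_
      rw [map_mul, eval_C, hD, if_neg, zero_mul]
      intro h
      apply hi
      exact Subtype.ext (congrArg Sigma.fst h)
  rw [Finset.sum_congr rfl fun i _ => by rw [hG0 i]] at hmain
  simp only [mul_ite, mul_zero, Finset.sum_ite_eq', Finset.mem_univ, if_true] at hmain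
  exact (mul_eq_zero.1 hmain).resolve_right (pow_ne_zero _ hb')

end Pool.Agent.H51.CI
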